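import Pool.Agent.W770.PC.Stms

set_option autoImplicit false

/-!
# PC-bump
-/

open MeasureTheory Set Filter Topology
open scoped ENNReal NNReal

namespace Pool.Agent.W770.PC

theorem Bu_zero (x : ℝ) (hx : 1 ≤ |x|) : bump x = 0 := by
  unfold bump
  rcases le_abs.1 hx with h | h
  · rw [Real.smoothTransition.one_of_one_le (by linarith),
      Real.smoothTransition.one_of_one_le h, sub_self]
  · rw [Real.smoothTransition.zero_of_nonpos (by linarith),
      Real.smoothTransition.zero_of_nonpos (by linarith), sub_self]

theorem Bu_smooth : ContDiff ℝ (⊤ : ℕ∞) bump := by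
  unfold bump
  have h1 : ContDiff ℝ (⊤ : ℕ∞) Real.smoothTransition := Real.smoothTransition.contDiff
  exact (h1.comp (contDiff_id.add contDiff_const)).sub h1

theorem Bu_sum (M : ℕ) (x : ℝ) : ∑ k ∈ Finset.range M, bump (x - k) =
    Real.smoothTransition (x + 1) - Real.smoothTransition (x + 1 - M) := by
  have h := Finset.sum_range_sub' (fun k : ℕ => Real.smoothTransition (x + 1 - k)) M
  simp only [Nat.cast_zero, sub_zero] at h
  rw [← h]
  refine Finset.sum_congr rfl fun k _ => ?_
  unfold bump
  congr 2
  · ring
  · push_cast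
    ring

theorem Bu_supp : HasCompactSupport bump := by
  refine HasCompactSupport.intro (isCompact_Icc (a := (-1 : ℝ)) (b := 1)) fun x hx => ?_
  apply Bu_zero
  by_contra h
  push Not at h
  exact hx ⟨(abs_lt.1 h).1.le, (abs_lt.1 h).2.le⟩

theorem Bu_it (j : ℕ) : HasCompactSupport (iteratedDeriv j bump) := by
  induction j with
  | zero => rw [iteratedDeriv_zero]; exact Bu_supp
  | succ j ih => rw [iteratedDeriv_succ]; exact ih.deriv

theorem Bu_bd (j : ℕ) : ∃ B : ℝ, ∀ x, |iteratedDeriv j bump x| ≤ B := by
  have hc : Continuous (iteratedDeriv j bump) :=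
    Bu_smooth.continuous_iteratedDeriv j (by exact_mod_cast le_top)
  obtain ⟨B, hB⟩ := (Bu_it j).exists_bound_of_continuous hc
  exact ⟨B, fun x => by simpa using hB x⟩

theorem bump_thm : S_bump := by
  refine ⟨fun x => ?_, fun x => ?_, Bu_zero, Bu_smooth, fun M x h0 h1 => ?_, fun M x => ?_, ?_⟩
  · exact sub_nonneg.2 (Real.smoothTransition.monotone (by linarith))
  · have h1 := Real.smoothTransition.le_one (x + 1)
    have h2 := Real.smoothTransition.nonneg x
    unfold bump
    linarith
  · rw [Bu_sum, Real.smoothTransition.one_of_one_le (by linarith),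
      Real.smoothTransition.zero_of_nonpos (by push_cast; linarith), sub_zero]
  · rw [Bu_sum]
    have h1 := Real.smoothTransition.le_one (x + 1)
    have h2 := Real.smoothTransition.nonneg (x + 1 - M)
    linarith
  · choose B hB using Bu_bd
    refine ⟨1 + |B 0| + |B 1| + |B 2| + |B 3|, ?_, fun j hj x => ?_⟩
    · have := abs_nonneg (B 0)
      have := abs_nonneg (B 1)
      have := abs_nonneg (B 2)
      have := abs_nonneg (B 3)
      linarith
    · have h := (hB j x).trans (le_abs_self _)
      have := abs_nonneg (B 0)
      have := abs_nonneg (B 1)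
      have := abs_nonneg (B 2)
      have := abs_nonneg (B 3)
      interval_cases j <;> linarith

end Pool.Agent.W770.PC
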