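import Pool.Agent.W770.PC.Stms

set_option autoImplicit false

/-!
# PC-prod
-/

open MeasureTheory Set Filter Topology
open scoped ENNReal NNReal

namespace Pool.Agent.W770.PC

theorem Pr_alg {B s : ℝ} (hB : 1 ≤ B) (hs : 0 < s) (G F L : ℕ → ℝ)
    (hL : ∀ n : ℕ, L n = ∑ i ∈ Finset.range (n + 1), (n.choose i : ℝ) * G i * F (n - i))
    (i0 : |G 0| ≤ 1) (i1 : |G 1| ≤ B * s) (i2 : |G 2| ≤ (B + 2 * B * B) * s ^ 2)
    (i3 : |G 3| ≤ (B + 3 * B * B + 3 * (B + 2 * B * B) * B) * s ^ 3)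
    (f0 : |F 0| ≤ 1) (f1 : |F 1| ≤ B * s) (f2 : |F 2| ≤ B * s ^ 2) (f3 : |F 3| ≤ B * s ^ 3) :
    |L 0| ≤ 1 ∧ |L 1| ≤ B * (s * 2) ∧ |L 2| ≤ (B + 2 * B * B) * (s * 2) ^ 2 ∧
      |L 3| ≤ (B + 3 * B * B + 3 * (B + 2 * B * B) * B) * (s * 2) ^ 3 := by
  have hB0 : 0 ≤ B := by linarith
  have mm : ∀ {x y X Y : ℝ}, |x| ≤ X → |y| ≤ Y → |x * y| ≤ X * Y := fun hx hy => by
    rw [abs_mul]
    exact mul_le_mul hx hy (abs_nonneg _) ((abs_nonneg _).trans hx)
  have h0 : L 0 = G 0 * F 0 := by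
    rw [hL]
    simp
  have h1 : L 1 = G 0 * F 1 + G 1 * F 0 := by
    rw [hL]
    simp [Finset.sum_range_succ]
  have h2 : L 2 = G 0 * F 2 + 2 * (G 1 * F 1) + G 2 * F 0 := by
    rw [hL]
    simp [Finset.sum_range_succ]
    ring
  have h3 : L 3 = G 0 * F 3 + 3 * (G 1 * F 2) + 3 * (G 2 * F 1) + G 3 * F 0 := by
    rw [hL]
    simp [Finset.sum_range_succ, Nat.choose]
    ring
  have hBs : 0 ≤ B * s := by positivity
  have q2 : 0 ≤ (B + 2 * B * B) * s ^ 2 := by positivity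
  have q3 : 0 ≤ (B + 3 * B * B + 3 * (B + 2 * B * B) * B) * s ^ 3 := by positivity
  rw [h0, h1, h2, h3]
  refine ⟨(mm i0 f0).trans (by norm_num), ?_, ?_, ?_⟩
  · have a1 := mm i0 f1
    have a2 := mm i1 f0
    rw [abs_le] at a1 a2 ⊢
    constructor <;> nlinarith
  · have a1 := mm i0 f2
    have a2 := mm i1 f1
    have a3 := mm i2 f0
    rw [abs_le] at a1 a2 a3 ⊢
    constructor <;> nlinarith
  · have a1 := mm i0 f3
    have a2 := mm i1 f2
    have a3 := mm i2 f1
    have a4 := mm i3 f0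
    rw [abs_le] at a1 a2 a3 a4 ⊢
    constructor <;> nlinarith

theorem Pr_main {B : ℝ} (hB : 1 ≤ B) {f : ℕ → ℝ → ℝ}
    (hf : ∀ a, ContDiff ℝ (⊤ : ℕ∞) (f a)) (h1 : ∀ a u, |f a u| ≤ 1)
    (h2 : ∀ a, ∀ j ≤ 3, ∀ u, |iteratedDeriv j (f a) u| ≤ B * (2 ^ a) ^ j) (a : ℕ) :
    ∀ u, |iteratedDeriv 0 (fun u => ∏ a' ∈ Finset.range a, f a' u) u| ≤ 1 ∧
      |iteratedDeriv 1 (fun u => ∏ a' ∈ Finset.range a, f a' u) u| ≤ B * 2 ^ a ∧
      |iteratedDeriv 2 (fun u => ∏ a' ∈ Finset.range a, f a' u) u| ≤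
        (B + 2 * B * B) * (2 ^ a) ^ 2 ∧
      |iteratedDeriv 3 (fun u => ∏ a' ∈ Finset.range a, f a' u) u| ≤
        (B + 3 * B * B + 3 * (B + 2 * B * B) * B) * (2 ^ a) ^ 3 := by
  have hB0 : 0 ≤ B := by linarith
  induction a with
  | zero =>
    intro u
    simp only [Finset.range_zero, Finset.prod_empty, iteratedDeriv_const]
    refine ⟨by norm_num, by norm_num; positivity, by norm_num; positivity,
      by norm_num; positivity⟩
  | succ a ih =>
    intro u
    obtain ⟨i0, i1, i2, i3⟩ := ih u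
    have hg : ContDiff ℝ (⊤ : ℕ∞) (fun u => ∏ a' ∈ Finset.range a, f a' u) :=
      contDiff_prod fun a' _ => hf a'
    have e : (fun u => ∏ a' ∈ Finset.range (a + 1), f a' u) =
        fun u => (∏ a' ∈ Finset.range a, f a' u) * f a u := by
      funext v
      rw [Finset.prod_range_succ]
    have hL : ∀ n : ℕ, iteratedDeriv n (fun u => ∏ a' ∈ Finset.range (a + 1), f a' u) u =
        ∑ i ∈ Finset.range (n + 1), (n.choose i : ℝ) *
          iteratedDeriv i (fun u => ∏ a' ∈ Finset.range a, f a' u) u *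
          iteratedDeriv (n - i) (f a) u := by
      intro n
      rw [e]
      exact iteratedDeriv_fun_mul (hg.contDiffAt.of_le (by exact_mod_cast le_top))
        ((hf a).contDiffAt.of_le (by exact_mod_cast le_top))
    have f0 : |iteratedDeriv 0 (f a) u| ≤ 1 := by
      rw [iteratedDeriv_zero]
      exact h1 a u
    have f1 := h2 a 1 (by norm_num) u
    have f2 := h2 a 2 (by norm_num) u
    have f3 := h2 a 3 (by norm_num) u
    have key := Pr_alg hB (show (0 : ℝ) < 2 ^ a by positivity)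
      (fun i => iteratedDeriv i (fun u => ∏ a' ∈ Finset.range a, f a' u) u)
      (fun i => iteratedDeriv i (f a) u)
      (fun i => iteratedDeriv i (fun u => ∏ a' ∈ Finset.range (a + 1), f a' u) u)
      hL i0 i1 i2 i3 f0 (by simpa using f1) f2 f3
    rw [pow_succ]
    exact key

theorem prod_thm : S_prod := by
  intro B hB
  have hB0 : 0 ≤ B := by linarith
  refine ⟨1 + B + (B + 2 * B * B) + (B + 3 * B * B + 3 * (B + 2 * B * B) * B), ?_, ?_⟩
  · have : 0 ≤ B * B := by positivity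
    have : 0 ≤ B * B * B := by positivity
    nlinarith
  · intro f hf h1 h2 a j hj u
    obtain ⟨i0, i1, i2, i3⟩ := Pr_main hB hf h1 h2 a u
    have hs : (0 : ℝ) < 2 ^ a := by positivity
    have hBB : 0 ≤ B * B := by positivity
    have hBBB : 0 ≤ B * B * B := by positivity
    interval_cases j
    · refine i0.trans ?_
      rw [pow_zero, mul_one]
      nlinarith
    · refine i1.trans ?_
      rw [pow_one]
      exact mul_le_mul_of_nonneg_right (by nlinarith) hs.le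
    · refine i2.trans ?_
      exact mul_le_mul_of_nonneg_right (by nlinarith) (by positivity)
    · refine i3.trans ?_
      exact mul_le_mul_of_nonneg_right (by nlinarith) (by positivity)

end Pool.Agent.W770.PC
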